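import Mathlib

/-!
# Finitely many automorphisms of `k⟦X⟧` fix a non-constant power series
-/

set_option autoImplicit false

open PowerSeries

namespace Pool.Agent.H88.CA

variable {k : Type*} [Field k]

theorem X_dvd_aut (σ : k⟦X⟧ ≃ₐ[k] k⟦X⟧) : (X : k⟦X⟧) ∣ σ X := by
  rw [X_dvd_iff]
  by_contra h
  have h1 : IsUnit (σ (X : k⟦X⟧)) := isUnit_iff_constantCoeff.mpr (isUnit_iff_ne_zero.mpr h)
  have h2 : IsUnit (X : k⟦X⟧) := by
    have := h1.map σ.symm
    simpa using this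
  rw [isUnit_iff_constantCoeff] at h2
  simp at h2

theorem aut_trunc (σ : k⟦X⟧ ≃ₐ[k] k⟦X⟧) (N : ℕ) (x : k⟦X⟧) :
    (X : k⟦X⟧) ^ N ∣ σ x - Polynomial.aeval (σ X) (trunc N x) := by
  have h1 : (X : k⟦X⟧) ^ N ∣ x - (trunc N x : k⟦X⟧) := by
    rw [X_pow_dvd_iff]
    intro m hm
    rw [map_sub, Polynomial.coeff_coe, coeff_trunc, if_pos hm, sub_self]
  have h2 : σ (X : k⟦X⟧) ^ N ∣ σ x - Polynomial.aeval (σ X) (trunc N x) := by
    obtain ⟨g, hg⟩ := h1
    refine ⟨σ g, ?_⟩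
    have h3 : σ ((trunc N x : Polynomial k) : k⟦X⟧) = Polynomial.aeval (σ X) (trunc N x) := by
      have h4 : ((trunc N x : Polynomial k) : k⟦X⟧) = Polynomial.aeval (X : k⟦X⟧) (trunc N x) := by
        rw [Polynomial.aeval_def, ← Polynomial.eval₂_C_X_eq_coe]
        rfl
      rw [h4]
      exact (Polynomial.aeval_algHom_apply (σ : k⟦X⟧ →ₐ[k] k⟦X⟧) X (trunc N x)).symm
    rw [← h3, ← map_sub, hg, map_mul, map_pow]
  exact (pow_dvd_pow_of_dvd (X_dvd_aut σ) N).trans h2

theorem aut_ext {σ τ : k⟦X⟧ ≃ₐ[k] k⟦X⟧} (h : σ X = τ X) : σ = τ := by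
  ext1 x
  have h1 : ∀ N, (X : k⟦X⟧) ^ N ∣ σ x - τ x := by
    intro N
    have h2 := aut_trunc σ N x
    have h3 := aut_trunc τ N x
    rw [← h] at h3
    have := dvd_sub h2 h3
    simpa using this
  rw [← sub_eq_zero]
  ext n
  exact (X_pow_dvd_iff.mp (h1 (n + 1))) n (Nat.lt_succ_self n)

theorem exists_ord {r : k⟦X⟧} (h : r ≠ 0) : ∃ e : ℕ, ∀ (N : ℕ) (y : k⟦X⟧), (X : k⟦X⟧) ^ (N + e) ∣ r * y →
    (X : k⟦X⟧) ^ N ∣ y := by
  refine ⟨r.order.toNat, fun N y hy => ?_⟩
  have h1 : IsUnit (divXPowOrder r) := by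
    rw [isUnit_iff_constantCoeff, isUnit_iff_ne_zero, Ne, constantCoeff_divXPowOrder_eq_zero_iff]
    exact h
  have h3 : r * y = X ^ r.order.toNat * (divXPowOrder r * y) := by
    rw [← mul_assoc, X_pow_order_mul_divXPowOrder]
  rw [h3, add_comm, pow_add] at hy
  have h2 := (mul_dvd_mul_iff_left (pow_ne_zero _ X_ne_zero)).mp hy
  exact (h1.dvd_mul_left).mp h2

theorem root_bound (S : Finset k⟦X⟧) : ∃ D : ℕ, ∀ (P : Polynomial k⟦X⟧) (N : ℕ), D ≤ N →
    (∀ r ∈ S, (X : k⟦X⟧) ^ N ∣ P.eval r) → ∃ Q R : Polynomial k⟦X⟧,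
      P = Q * ∏ r ∈ S, (Polynomial.X - Polynomial.C r) + Polynomial.C X * R := by
  classical
  induction S using Finset.induction_on with
  | empty => exact ⟨0, fun P N _ _ => ⟨P, 0, by simp⟩⟩
  | insert r₀ S hr ih =>
    obtain ⟨D, hD⟩ := ih
    have h1 : ∀ r ∈ S, ∃ e : ℕ, ∀ (N : ℕ) (y : k⟦X⟧), (X : k⟦X⟧) ^ (N + e) ∣ (r - r₀) * y → (X : k⟦X⟧) ^ N ∣ y := fun r hr' =>
      exists_ord (sub_ne_zero.mpr fun h => hr (h ▸ hr'))
    choose! e he using h1
    refine ⟨D + S.sup e + 1, fun P N hN hP => ?_⟩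
    set P₁ := P /ₘ (Polynomial.X - Polynomial.C r₀) with hP₁
    have h2 : P = Polynomial.C (P.eval r₀) + (Polynomial.X - Polynomial.C r₀) * P₁ := by
      have := Polynomial.modByMonic_add_div P (Polynomial.X - Polynomial.C r₀)
      rw [Polynomial.modByMonic_X_sub_C_eq_C_eval] at this
      exact this.symm
    obtain ⟨Q, R, hQR⟩ := hD P₁ (N - S.sup e) (by omega) fun r hr' => by
      have h3 : P.eval r = P.eval r₀ + (r - r₀) * P₁.eval r := by
        conv_lhs => rw [h2]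
        simp
      have h4 : (X : k⟦X⟧) ^ N ∣ (r - r₀) * P₁.eval r := by
        have := dvd_sub (hP r (Finset.mem_insert_of_mem hr')) (hP r₀ (Finset.mem_insert_self _ _))
        rwa [h3, add_sub_cancel_left] at this
      have h5 : e r ≤ S.sup e := Finset.le_sup hr'
      refine he r hr' (N - S.sup e) _ ((pow_dvd_pow _ ?_).trans h4)
      omega
    obtain ⟨c, hc⟩ : (X : k⟦X⟧) ∣ P.eval r₀ := (dvd_pow_self _ (by omega)).trans (hP r₀ (Finset.mem_insert_self _ _))
    refine ⟨Q, Polynomial.C c + (Polynomial.X - Polynomial.C r₀) * R, ?_⟩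
    rw [Finset.prod_insert hr, h2, hQR, hc, Polynomial.C_mul]
    ring

theorem finite_fix {f : k⟦X⟧} (hf : f ≠ C (constantCoeff f)) : {σ : k⟦X⟧ ≃ₐ[k] k⟦X⟧ | σ f = f}.Finite := by
  classical
  by_contra hinf
  set g : k⟦X⟧ := f - C (constantCoeff f) with hg
  have hg0 : g ≠ 0 := sub_ne_zero.mpr hf
  set d := g.order.toNat with hd
  have hgd : coeff d g ≠ 0 := coeff_order hg0
  have hlow : ∀ i, i < d → coeff i g = 0 := fun i hi => coeff_of_lt_order_toNat i hi
  obtain ⟨T, hT, hcard⟩ := Set.Infinite.exists_subset_card_eq hinf (d + 1)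
  have hinj : Set.InjOn (fun σ : k⟦X⟧ ≃ₐ[k] k⟦X⟧ => σ X) (T : Set _) := fun σ _ τ _ h => aut_ext h
  set S : Finset k⟦X⟧ := T.image fun σ => σ X with hS
  have hScard : S.card = d + 1 := by rw [hS, Finset.card_image_of_injOn hinj, hcard]
  obtain ⟨D, hD⟩ := root_bound S
  set N := max D (d + 1) with hN
  have hgfix : ∀ σ ∈ T, σ g = g := by
    intro σ hσ
    have h1 : σ f = f := hT hσ
    have h2 : σ (C (constantCoeff f)) = C (constantCoeff f) := by
      have := σ.commutes (constantCoeff f)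
      exact this
    rw [hg, map_sub, h1, h2]
  set P : Polynomial k⟦X⟧ := (trunc N g).map (algebraMap k k⟦X⟧) - Polynomial.C g with hP
  obtain ⟨Q, R, hQR⟩ := hD P N (le_max_left _ _) (by
    intro r hr
    obtain ⟨σ, hσ, rfl⟩ := Finset.mem_image.mp hr
    have h1 := aut_trunc σ N g
    rw [hgfix σ hσ] at h1
    have h2 : P.eval (σ X) = Polynomial.aeval (σ X) (trunc N g) - g := by
      rw [hP, Polynomial.eval_sub, Polynomial.eval_C, Polynomial.eval_map, Polynomial.aeval_def]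
    rw [h2, ← dvd_neg, neg_sub]
    exact h1)
  have hred : ∀ r ∈ S, constantCoeff r = 0 := by
    intro r hr
    obtain ⟨σ, hσ, rfl⟩ := Finset.mem_image.mp hr
    exact X_dvd_iff.mp (X_dvd_aut σ)
  have h3 : P.map (constantCoeff (R := k)) = Q.map (constantCoeff (R := k)) * Polynomial.X ^ (d + 1) := by
    rw [hQR, Polynomial.map_add, Polynomial.map_mul, Polynomial.map_mul, Polynomial.map_C, constantCoeff_X,
      Polynomial.map_prod]
    have : ∏ r ∈ S, (Polynomial.X - Polynomial.C r).map (constantCoeff (R := k)) = Polynomial.X ^ (d + 1) := by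
      rw [← hScard, ← Finset.prod_const]
      refine Finset.prod_congr rfl fun r hr => ?_
      rw [Polynomial.map_sub, Polynomial.map_X, Polynomial.map_C, hred r hr, map_zero, sub_zero]
    rw [this, map_zero, zero_mul, add_zero]
  have h4 : (P.map (constantCoeff (R := k))).coeff d = 0 := by
    rw [h3, Polynomial.coeff_mul_X_pow', if_neg (by omega)]
  have hgc : constantCoeff g = 0 := by simp [hg]
  have h5 : P.map (constantCoeff (R := k)) = trunc N g := by
    rw [hP, Polynomial.map_sub, Polynomial.map_map, Polynomial.map_C, hgc, map_zero, sub_zero]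
    have : (constantCoeff (R := k)).comp (algebraMap k k⟦X⟧) = RingHom.id k := by
      ext a
      exact constantCoeff_C a
    rw [this, Polynomial.map_id]
  rw [h5, coeff_trunc, if_pos (by omega)] at h4
  exact hgd h4

end Pool.Agent.H88.CA
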