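import Pool.Agent.H13.CA.Curve
import Pool.Agent.H13.CA.Grp2
import Pool.Agent.H88.CA.Fin

/-!
# Standard ideals are stable, `k((u))^V = k`
-/

set_option autoImplicit false

open MvPowerSeries

namespace Pool.Agent.H88.CA

open Pool.Agent.H13.CA

theorem unit_coeff_one {A : Type*} [CommRing A] {f f' : PowerSeries A} (hf : PowerSeries.constantCoeff f = 0)
    (hf' : PowerSeries.constantCoeff f' = 0) (h : PowerSeries.subst f f' = (PowerSeries.X : PowerSeries A)) :
    IsUnit (PowerSeries.coeff 1 f) := by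
  obtain ⟨g, hg⟩ := PowerSeries.X_dvd_iff.mpr hf
  obtain ⟨g', hg'⟩ := PowerSeries.X_dvd_iff.mpr hf'
  have hs : PowerSeries.HasSubst f := PowerSeries.HasSubst.of_constantCoeff_zero' hf
  rw [hg', PowerSeries.subst_mul hs, PowerSeries.subst_X hs] at h
  have h1 : PowerSeries.coeff 1 (f * PowerSeries.subst f g') = 1 := by rw [h, PowerSeries.coeff_one_X]
  rw [hg, mul_assoc, show (1 : ℕ) = 0 + 1 from rfl, PowerSeries.coeff_succ_X_mul,
    PowerSeries.coeff_zero_eq_constantCoeff_apply, map_mul] at h1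
  have h2 : PowerSeries.coeff 1 f = PowerSeries.constantCoeff g := by
    rw [hg, show (1 : ℕ) = 0 + 1 from rfl, PowerSeries.coeff_succ_X_mul, PowerSeries.coeff_zero_eq_constantCoeff_apply]
  rw [h2]
  exact IsUnit.of_mul_eq_one _ h1

theorem Istd_eq {k : Type*} [Field k] {p : ℕ} [Fact p.Prime] {m : ℕ} {F : FormalGroup (MvPowerSeries (Fin m) k)}
    (hF : IsLT k p m F) (j : ℕ) (hj : j ≤ m) :
    Istd k m j = Ideal.span {x | ∃ i, i < p ^ (j + 1) ∧ x = PowerSeries.coeff i (mulSer F p)} := by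
  have hp : 1 < p := (Fact.out : p.Prime).one_lt
  induction j using Nat.strong_induction_on with
  | _ j ih =>
  apply le_antisymm
  · refine Ideal.span_le.mpr ?_
    rintro _ ⟨i, hij, rfl⟩
    have h1 := hF.mid i
    have h2 := ih i.val hij (by omega)
    have h3 : Istd k m i.val ≤ Ideal.span {x | ∃ i, i < p ^ (j + 1) ∧ x = PowerSeries.coeff i (mulSer F p)} := by
      rw [h2]
      refine Ideal.span_mono ?_
      rintro _ ⟨l, hl, rfl⟩
      exact ⟨l, hl.trans_le (Nat.pow_le_pow_right hp.le (by omega)), rfl⟩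
    have h4 : PowerSeries.coeff (p ^ (i.val + 1)) (mulSer F p) ∈
        Ideal.span {x | ∃ i, i < p ^ (j + 1) ∧ x = PowerSeries.coeff i (mulSer F p)} :=
      Ideal.subset_span ⟨_, Nat.pow_lt_pow_right hp (by omega), rfl⟩
    have h5 := Ideal.sub_mem _ h4 (h3 h1)
    simpa using h5
  · refine Ideal.span_le.mpr ?_
    rintro _ ⟨i, hi, rfl⟩
    exact hF.low j hj i hi

theorem Istd_stable {k : Type*} [Field k] (p : ℕ) [Fact p.Prime] [CharP k p] {m : ℕ}
    {F : FormalGroup (MvPowerSeries (Fin m) k)} (hF : IsLT k p m F) (a : Lift k F) (j : ℕ) :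
    (Istd k m j).map (a.g : MvPowerSeries (Fin m) k →+* MvPowerSeries (Fin m) k) =
      Istd k m j := by
  have key : ∀ j, j ≤ m → (Istd k m j).map (a.g : MvPowerSeries (Fin m) k →+* MvPowerSeries (Fin m) k) =
      Istd k m j := by
    intro j hj
    have h1 := span_coeff_mulSer a.hom (unit_coeff_one a.hom.1 a.zero' a.left) p (p ^ (j + 1))
    rw [Istd_eq hF j hj]
    rw [Ideal.map_span, h1]
    congr 1
    ext x
    constructor
    · rintro ⟨_, ⟨i, hi, rfl⟩, rfl⟩
      exact ⟨i, hi, by rw [mulSer_map]; exact (PowerSeries.coeff_map _ _ _).symm⟩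
    · rintro ⟨i, hi, rfl⟩
      exact ⟨_, ⟨i, hi, rfl⟩, by rw [mulSer_map]; exact (PowerSeries.coeff_map _ _ _).symm⟩
  by_cases hj : j ≤ m
  · exact key j hj
  · have h2 : Istd k m j = Istd k m m := by
      unfold Istd
      congr 1
      ext x
      constructor
      · rintro ⟨i, _, rfl⟩
        exact ⟨i, i.isLt, rfl⟩
      · rintro ⟨i, hi, rfl⟩
        exact ⟨i, by omega, rfl⟩
    rw [h2]
    exact key m le_rfl

section bar

variable {k : Type*} [Field k] {s : ℕ} {π : MvPowerSeries (Fin (s + 1)) k →ₐ[k] PowerSeries k}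

theorem exists_bar_aux {R B : Type*} [CommRing R] [CommRing B] [Algebra k R] [Algebra k B] (π : R →ₐ[k] B)
    (hs : Function.Surjective π) (g : R ≃ₐ[k] R) (I : Ideal R) (hI : ∀ f, π f = 0 ↔ f ∈ I)
    (hg : I.map (g : R →+* R) = I) : ∃ σ : B ≃ₐ[k] B, ∀ x, σ (π x) = π (g x) := by
  have h1 : ∀ x, π x = 0 → π (g x) = 0 := fun x hx =>
    (hI _).mpr (hg.le (Ideal.mem_map_of_mem (g : R →+* R) ((hI x).mp hx)))
  have h2 : ∀ x, π (g x) = 0 → π x = 0 := by
    intro x hx
    have h3 := (Ideal.mem_map_iff_of_surjective (g : R →+* R) g.surjective).mp (hg.ge ((hI _).mp hx))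
    obtain ⟨y, hy, hxy⟩ := h3
    have h4 : y = x := g.injective hxy
    exact (hI x).mpr (h4 ▸ hy)
  set L := AlgHom.liftOfSurjective π hs (π.comp (g : R →ₐ[k] R)) (fun x hx => h1 x hx) with hL
  have hLa : ∀ x, L (π x) = π (g x) := fun x => AlgHom.liftOfSurjective_apply _ _ _ _ x
  have hinj : Function.Injective L := by
    rw [injective_iff_map_eq_zero]
    intro y hy
    obtain ⟨x, rfl⟩ := hs y
    exact h2 x ((hLa x).symm.trans hy)
  have hsurj : Function.Surjective L := by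
    intro y
    obtain ⟨x, rfl⟩ := hs y
    obtain ⟨z, rfl⟩ := g.surjective x
    exact ⟨π z, hLa z⟩
  exact ⟨AlgEquiv.ofBijective L ⟨hinj, hsurj⟩, hLa⟩

theorem exists_bar (hπ : IsProj k s π) (g : MvPowerSeries (Fin (s + 1)) k ≃ₐ[k] MvPowerSeries (Fin (s + 1)) k)
    (hg : (Istd k (s + 1) s).map (g : MvPowerSeries (Fin (s + 1)) k →+* _) = Istd k (s + 1) s) :
    ∃ σ : PowerSeries k ≃ₐ[k] PowerSeries k, ∀ x, σ (π x) = π (g x) :=
  exists_bar_aux π hπ.surj g (Istd k (s + 1) s) hπ.ker hg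

/-- the action on `k⟦u⟧` -/
theorem exists_act (hπ : IsProj k s π) (p : ℕ) [Fact p.Prime] [CharP k p] {F : FormalGroup (MvPowerSeries (Fin (s + 1)) k)}
    (hF : IsLT k p (s + 1) F) :
    ∃ φ : Lift k F →* (PowerSeries k ≃ₐ[k] PowerSeries k), ∀ a x, φ a (π x) = π (a.g x) := by
  choose φ hφ using fun a : Lift k F => exists_bar hπ a.g (Istd_stable p hF a s)
  refine ⟨MonoidHom.mk' φ fun a b => ?_, hφ⟩
  ext1 y
  obtain ⟨x, rfl⟩ := hπ.surj y
  rw [hφ, Lift.mul_g, AlgEquiv.mul_apply, AlgEquiv.mul_apply, hφ, hφ]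

end bar

theorem ample_inf {k : Type*} [Field k] {m : ℕ} {F : FormalGroup (MvPowerSeries (Fin m) k)} {G : Type*} [Group G]
    (φ : Lift k F →* G) {V : Subgroup (Lift k F)} (hV : Ample V) {T : Set G} (hT : T.Finite) (h : ∀ a ∈ V, φ a ∈ T) :
    Ample (V ⊓ φ.ker) := by
  refine hV.inf_of_index ?_
  rw [Subgroup.relIndex_ker]
  have h1 : ((V.map φ : Subgroup G) : Set G).Finite := hT.subset (by
    rintro _ ⟨a, ha, rfl⟩
    exact h a ha)
  have := h1.to_subtype
  exact Nat.card_ne_zero.mpr ⟨⟨1, one_mem _⟩, this⟩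

theorem const_of_fixed {k : Type*} [Field k] [IsAlgClosed k] (p : ℕ) [Fact p.Prime] [CharP k p]
    {s : ℕ} {F : FormalGroup (MvPowerSeries (Fin (s + 1)) k)} (hF : IsLT k p (s + 1) F)
    {π : MvPowerSeries (Fin (s + 1)) k →ₐ[k] PowerSeries k} (hπ : IsProj k s π)
    (V : Subgroup (Lift k F)) (hV : Ample V) (φ : Lift k F →* (PowerSeries k ≃ₐ[k] PowerSeries k))
    (hφ : ∀ a x, φ a (π x) = π (a.g x)) (f : PowerSeries k) (hf : ∀ a ∈ V, φ a f = f) :
    f = PowerSeries.C (PowerSeries.constantCoeff f) := by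
  by_contra hne
  obtain ⟨a, ha, x, hx⟩ := nontriv p hF hπ (V ⊓ φ.ker) (ample_inf φ hV (finite_fix hne) hf)
  refine hx ?_
  rw [← hφ, (MonoidHom.mem_ker.mp (Subgroup.mem_inf.mp ha).2)]
  rfl

theorem inv_const {k : Type*} [Field k] [IsAlgClosed k] (p : ℕ) [Fact p.Prime] [CharP k p]
    {s : ℕ} {F : FormalGroup (MvPowerSeries (Fin (s + 1)) k)}
    (hF : IsLT k p (s + 1) F)
    {π : MvPowerSeries (Fin (s + 1)) k →ₐ[k] PowerSeries k} (hπ : IsProj k s π)
    (V : Subgroup (Lift k F)) (hV : Ample V)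
    (x y : MvPowerSeries (Fin (s + 1)) k) (hy : π y ≠ 0)
    (hxy : ∀ a ∈ V, π (a.g x) * π y = π x * π (a.g y)) :
    ∃ c : k, π x = c • π y := by
  obtain ⟨φ, hφ⟩ := exists_act hπ p hF
  have hxy' : ∀ a ∈ V, φ a (π x) * π y = π x * φ a (π y) := fun a ha => by rw [hφ, hφ, hxy a ha]
  generalize π x = X at hxy' ⊢
  generalize π y = Y at hxy' hy ⊢
  by_cases hX : X = 0
  · exact ⟨0, by rw [hX, zero_smul]⟩
  have hYa : ∀ a, φ a Y ≠ 0 := fun a => by simpa using hy
  have hXa : ∀ a, φ a X ≠ 0 := fun a => by simpa using hX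
  rcases ValuationRing.dvd_total Y X with ⟨f, rfl⟩ | ⟨f, rfl⟩
  · have h1 : ∀ a ∈ V, φ a f = f := by
      intro a ha
      have h2 := hxy' a ha
      rw [map_mul] at h2
      have h3 : (φ a Y * Y) * φ a f = (φ a Y * Y) * f := by
        linear_combination h2
      exact mul_left_cancel₀ (mul_ne_zero (hYa a) hy) h3
    have h2 := const_of_fixed p hF hπ V hV φ hφ f h1
    refine ⟨PowerSeries.constantCoeff f, ?_⟩
    conv_lhs => rw [h2]
    rw [PowerSeries.smul_eq_C_mul, mul_comm]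
  · have h1 : ∀ a ∈ V, φ a f = f := by
      intro a ha
      have h2 := hxy' a ha
      rw [map_mul] at h2
      have h3 : (φ a X * X) * φ a f = (φ a X * X) * f := by
        linear_combination -h2
      exact mul_left_cancel₀ (mul_ne_zero (hXa a) hX) h3
    obtain ⟨c, rfl⟩ : ∃ c, f = PowerSeries.C c := ⟨_, const_of_fixed p hF hπ V hV φ hφ f h1⟩
    have h3 : c ≠ 0 := by
      rintro rfl
      exact hy (by rw [map_zero, mul_zero])
    refine ⟨c⁻¹, ?_⟩
    rw [PowerSeries.smul_eq_C_mul, mul_left_comm, ← map_mul, inv_mul_cancel₀ h3, map_one, mul_one]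

end Pool.Agent.H88.CA
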